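import Pool.Agent.helper88.RQ2.Spec

/-!
# Row AR1 of project RQ (MP_bb0bb6_co)
-/

set_option autoImplicit false

open Set Matroid RadonMin

namespace RadonQ2

/-- AR1: equality in `hh_tangent`. -/
theorem AR1_proof : AR1_stmt := by
  intro q n hq hn heq
  by_contra hno
  push Not at hno
  obtain ⟨hne, hno5⟩ := hno
  rcases Nat.lt_or_ge (q + 2) n with h | h
  · -- `n > q + 2`
    have h1 := hh_succ (n - 1) (by omega)
    rw [show n - 1 + 1 = n by omega] at h1
    have h2 := hh_tangent q (n - 1) (by omega) (by omega)
    have h3 : ((q + 1).choose 2 : ℤ) ≤ (n - 1 - 1).choose 2 := choose_two_mono (by omega)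
    have h4 := choose_two_succ q
    have h5 := corr_succ_le (n - 1 - 1)
    rw [show n - 1 - 1 + 1 = n - 1 by omega] at h5
    have h6 : (corr (n - 1) : ℤ) ≤ corr (n - 1 - 1) + 2 := by exact_mod_cast h5
    have h7 : ((n - 1 : ℕ) : ℤ) = n - 1 := by
      rw [Nat.cast_sub (by omega)]
      rfl
    rw [h7] at h2
    have h8 : (4 : ℤ) ≤ q := by exact_mod_cast hq
    linarith
  · have hlt : n < q + 2 := lt_of_le_of_ne h hne
    have h1 := hh_succ n (by omega)
    have h2 := hh_tangent q (n + 1) (by omega) (by omega)
    have h5 := corr_mono (n - 1)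
    rw [show n - 1 + 1 = n by omega] at h5
    have h6 : (corr (n - 1) : ℤ) ≤ corr n := by exact_mod_cast h5
    push_cast at h2
    rcases Nat.lt_or_ge q n with h7 | h7
    · -- `n = q + 1`
      have hnq : n = q + 1 := by omega
      subst hnq
      rw [show q + 1 - 1 = q by omega] at h1 h6
      have h8 : (corr (q + 1) : ℤ) ≤ corr q := by linarith
      have h9 : corr (q + 1) ≤ corr q := by exact_mod_cast h8
      rcases Nat.lt_or_ge q 6 with h10 | h10
      · have h11 : q = 4 ∨ q = 5 := by omega
        rcases h11 with rfl | rfl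
        · revert h9
          decide
        · exact hno5 rfl rfl
      · unfold corr at h9
        rw [if_neg (by omega), if_neg (by omega)] at h9
        omega
    · have h3 : ((n - 1).choose 2 : ℤ) ≤ (q - 1).choose 2 := choose_two_mono (by omega)
      have h4 := choose_two_succ (q - 1)
      rw [show q - 1 + 1 = q by omega] at h4
      have h7' : ((q - 1 : ℕ) : ℤ) = q - 1 := by
        rw [Nat.cast_sub (by omega)]
        rfl
      rw [h7'] at h4
      have h8 : (4 : ℤ) ≤ q := by exact_mod_cast hq
      linarith

end RadonQ2
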