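import Pool.Agent.helper88.RQ2.Spec

/-!
# Row AUD of project RQ (MP_bb0bb6_co)
-/

set_option autoImplicit false

open Set Matroid RadonMin

namespace RadonQ2

/-- AUD: the difference of two consecutive linear bounds. -/
theorem AUD_proof : AUD_stmt := by
  intro q n k _
  unfold UU
  have h1 := hh_succ (q + 2) (by omega)
  rw [show q + 2 - 1 = q + 1 by omega] at h1
  have h2 := choose_two_succ q
  have h3 := choose_three_succ (q + 1)
  rw [show q + 1 + 1 = q + 2 by omega] at h3
  have h4 := two_mul_choose_two q
  rw [show q + 1 + 2 = q + 2 + 1 by omega, show q + 1 + 1 = q + 2 by omega, h1, h3, h2]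
  push_cast
  linear_combination (-(k - 1)) * h4

end RadonQ2
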